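import Pool.Agent.Helper75.CG.Defs2

/-!
# Project CH, module CH-A: basic facts on districts and generations
-/

set_option autoImplicit false

namespace Pool.Agent.Helper75.CG

open scoped Classical
open Finset
open Pool.Agent.Helper65.CliqueGame

namespace Setup

variable {V Δ : Type} [Fintype V] [Fintype Δ] (X : Setup V Δ)

theorem mem_SS0_of_adm {A S : Finset V} (hA : X.Adm A) (h : S ⊆ A) (hne : S.Nonempty) :
    S ∈ X.SS0 := by
  rw [SS0, mem_filter]
  exact ⟨mem_univ _, hne, A, hA, h⟩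

theorem SS0_sub {S T : Finset V} (hS : S ∈ X.SS0) (hT : T ⊆ S) (hne : T.Nonempty) :
    T ∈ X.SS0 := by
  rw [SS0, mem_filter] at hS
  obtain ⟨-, -, A, hA, hSA⟩ := hS
  exact X.mem_SS0_of_adm hA (hT.trans hSA) hne

theorem part_card_le {S : Finset V} (hS : S ∈ X.SS0) (δ : Δ) :
    (X.part S δ).card ≤ X.bs (X.gen δ) := by
  rw [SS0, mem_filter] at hS
  obtain ⟨-, -, A, hA, hSA⟩ := hS
  have h1 : (X.part S δ).card ≤ (X.part A δ).card :=
    card_le_card (filter_subset_filter _ hSA)
  rcases hA.1 δ with h | h <;> omega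

theorem bs_le (j : ℕ) : X.bs j ≤ 2 ^ X.z j := by
  rw [bs]
  split_ifs with h
  · exact X.hz j h
  · exact Nat.one_le_two_pow

theorem NN_pos (j : ℕ) : 0 < X.NN j := Nat.choose_pos (X.bs_le j)

theorem bs_R : X.bs X.R = 1 := by
  rw [bs, if_neg (lt_irrefl _)]

theorem bs_lt {j : ℕ} (h : j < X.R) : X.bs j = X.m := by
  rw [bs, if_pos h]

theorem bs_pos (j : ℕ) : 0 < X.bs j := by
  rw [bs]
  have := X.hm
  split_ifs <;> omega

theorem compl_lt {S T : Finset V} {δ : Δ} (h : δ ∈ X.compl S T) : X.gen δ < X.R := by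
  rw [compl, mem_filter] at h
  obtain ⟨-, h1, h2, -⟩ := h
  by_contra hc
  have h3 : X.gen δ = X.R := le_antisymm (X.gen_le δ) (not_lt.1 hc)
  rw [h3, bs_R] at h2
  have h4 := card_pos.2 h1
  omega

theorem compl_ge {j : ℕ} (hj : j ≤ X.R) {Y : Δ → Finset V}
    (hY : ∀ δ, X.gen δ < j → (Y δ).card = X.m) {S T : Finset V} (hS : X.Sel j Y S) {δ : Δ}
    (h : δ ∈ X.compl S T) : j ≤ X.gen δ := by
  rw [compl, mem_filter] at h
  obtain ⟨-, h1, h2, -⟩ := h
  by_contra hc
  have h3 : X.gen δ < j := not_le.1 hc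
  rw [X.bs_lt (lt_of_lt_of_le h3 hj)] at h2
  rcases hS δ h3 with h4 | h4
  · rw [h4] at h1
    exact not_nonempty_empty h1
  · rw [h4, hY δ h3] at h2
    exact lt_irrefl _ h2

/-- The number of vertices, district by district. -/
theorem card_eq_sum_part (A : Finset V) : A.card = ∑ δ ∈ A.image X.dis, (X.part A δ).card := by
  exact card_eq_sum_card_image X.dis A

theorem Adm.card {A : Finset V} (hA : X.Adm A) :
    A.card = ∑ j ∈ range (X.R + 1), X.bs j * X.k j := by
  have h1 : ∀ δ ∈ A.image X.dis, (X.part A δ).card = X.bs (X.gen δ) := by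
    intro δ hδ
    obtain ⟨x, hx, rfl⟩ := mem_image.1 hδ
    rcases hA.1 (X.dis x) with h | h
    · rw [card_eq_zero] at h
      have : x ∈ X.part A (X.dis x) := by
        rw [part, mem_filter]
        exact ⟨hx, rfl⟩
      rw [h] at this
      exact absurd this (notMem_empty x)
    · exact h
  rw [X.card_eq_sum_part A, sum_congr rfl h1]
  have h2 : ∑ δ ∈ A.image X.dis, X.bs (X.gen δ) =
      ∑ j ∈ range (X.R + 1), ∑ δ ∈ (A.image X.dis).filter (fun δ => X.gen δ = j),
        X.bs (X.gen δ) := by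
    symm
    apply sum_fiberwise_of_maps_to
    intro δ _
    exact mem_range.2 (Nat.lt_succ_of_le (X.gen_le δ))
  rw [h2]
  apply sum_congr rfl
  intro j hj
  have h3 : ∀ δ ∈ (A.image X.dis).filter (fun δ => X.gen δ = j),
      X.bs (X.gen δ) = X.bs j := by
    intro δ hδ
    rw [(mem_filter.1 hδ).2]
  rw [sum_congr rfl h3, sum_const, hA.2 j (Nat.lt_succ_iff.1 (mem_range.1 hj)), smul_eq_mul,
    mul_comm]

theorem card_gv {i : ℕ} (hi : i ≤ X.R) :
    (univ.filter (fun x => X.gv x = i)).card = 2 ^ (X.y i + X.z i) := by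
  have h1 : ∀ x ∈ univ.filter (fun x => X.gv x = i), X.dis x ∈ univ.filter
      (fun δ => X.gen δ = i) := by
    intro x hx
    rw [mem_filter] at hx ⊢
    exact ⟨mem_univ _, hx.2⟩
  rw [card_eq_sum_card_fiberwise h1]
  have h2 : ∀ δ ∈ univ.filter (fun δ => X.gen δ = i),
      ((univ.filter (fun x => X.gv x = i)).filter (fun x => X.dis x = δ)).card = 2 ^ X.z i := by
    intro δ hδ
    have hδ' := (mem_filter.1 hδ).2
    rw [← hδ', ← X.card_dis δ]
    congr 1
    ext x
    simp only [mem_filter, mem_univ, true_and]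
    constructor
    · exact fun h => h.2
    · intro h
      exact ⟨by rw [gv, h], h⟩
  rw [sum_congr rfl h2, sum_const, X.card_gen i hi, smul_eq_mul, ← pow_add]

theorem card_cross {j : ℕ} (hj : j ≤ X.R) : (X.cross j).card ≤ 2 ^ (2 * (X.y j + X.z j)) := by
  have h1 : X.cross j ⊆ ((univ.filter (fun x => X.gv x = j)) ×ˢ
      (univ.filter (fun x => X.gv x = j))).image (fun p : V × V => s(p.1, p.2)) := by
    intro e he
    rw [cross, mem_filter] at he
    induction e using Sym2.inductionOn with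
    | hf a b =>
      rw [mem_image]
      refine ⟨(a, b), ?_, rfl⟩
      rw [mem_product, mem_filter, mem_filter]
      exact ⟨⟨mem_univ _, he.2.1 a (Sym2.mem_mk_left a b)⟩,
        ⟨mem_univ _, he.2.1 b (Sym2.mem_mk_right a b)⟩⟩
  calc (X.cross j).card ≤ _ := card_le_card h1
    _ ≤ _ := card_image_le
    _ = 2 ^ (2 * (X.y j + X.z j)) := by
      rw [card_product, X.card_gv hj, ← pow_add, two_mul]

theorem card_inner {i : ℕ} (hi : i ≤ X.R) :
    (X.inner.filter (fun e => ∃ x ∈ e, X.gv x = i)).card ≤ 2 ^ (X.y i + 2 * X.z i) := by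
  let P : Finset (V × V) := (univ.filter (fun δ => X.gen δ = i)).biUnion
    (fun δ => (X.dset δ) ×ˢ (X.dset δ))
  have h1 : X.inner.filter (fun e => ∃ x ∈ e, X.gv x = i) ⊆
      P.image (fun p : V × V => s(p.1, p.2)) := by
    intro e he
    rw [mem_filter, inner, mem_filter] at he
    induction e using Sym2.inductionOn with
    | hf a b =>
      obtain ⟨⟨-, -, hd, -⟩, x, hx, hxi⟩ := he
      have hab : X.dis a = X.dis b := hd a (Sym2.mem_mk_left a b) b (Sym2.mem_mk_right a b)
      have hai : X.gen (X.dis a) = i := by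
        rw [← hxi, gv, hd x hx a (Sym2.mem_mk_left a b)]
      rw [mem_image]
      refine ⟨(a, b), ?_, rfl⟩
      rw [mem_biUnion]
      refine ⟨X.dis a, ?_, ?_⟩
      · rw [mem_filter]
        exact ⟨mem_univ _, hai⟩
      · rw [mem_product, dset, mem_filter, mem_filter]
        exact ⟨⟨mem_univ _, rfl⟩, ⟨mem_univ _, hab.symm⟩⟩
  calc (X.inner.filter (fun e => ∃ x ∈ e, X.gv x = i)).card ≤ _ := card_le_card h1
    _ ≤ P.card := card_image_le
    _ ≤ ∑ δ ∈ univ.filter (fun δ => X.gen δ = i), ((X.dset δ) ×ˢ (X.dset δ)).card :=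
      card_biUnion_le
    _ = ∑ δ ∈ univ.filter (fun δ => X.gen δ = i), 2 ^ (2 * X.z i) := by
      apply sum_congr rfl
      intro δ hδ
      rw [card_product, dset, X.card_dis δ, (mem_filter.1 hδ).2, ← pow_add, two_mul]
    _ = 2 ^ (X.y i + 2 * X.z i) := by
      rw [sum_const, X.card_gen i hi, smul_eq_mul, ← pow_add]

end Setup

end Pool.Agent.Helper75.CG
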